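import Mathlib
import Pool.Agent.K4H32.LCP.Stmt
import Pool.Agent.K4H32.LCP.Final

/-!
# The fundamental group of an LCP manifold acts freely on the non-flat factor

Positive answer to Q1. Let `(M, c, D)` be a locally conformally product manifold with universal cover
`V × N`, `V = ℝ^q` with `q ≥ 1`, and let `Γ = π₁(M)` act on it by deck transformations
`γ = (γ_E, γ_N)`. If `γ_N` fixes a point of `N` then `γ = 1`, so `γ_N = id`: the group `P` of all
`γ_N` acts freely on `N`.

The theorem holds for every connected Riemannian manifold `N`, complete or not, flat or not, reducible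
or not, and for every free and properly discontinuous action on `V × N` by pairs of similarities of
the same ratio, not all of ratio `1`. Compactness of the quotient is not used.
-/

open scoped Manifold ContDiff
open Bundle Pool.Agent.K4H32.LCPS

namespace Pool.Agent.Results.MP_d802ba_gt.FreeOnFactor

universe u v w x

theorem result
    -- the flat factor: a Euclidean space `V` of dimension `q ≥ 1`
    {V : Type u} [NormedAddCommGroup V] [InnerProductSpace ℝ V] [FiniteDimensional ℝ V]
    [Nontrivial V]
    -- the factor `N`: a connected smooth Riemannian manifold, modelled on the finite-dimensional real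
    -- vector space `E`, with its distance
    {E : Type v} [NormedAddCommGroup E] [NormedSpace ℝ E] [FiniteDimensional ℝ E]
    {N : Type w} [MetricSpace N] [ChartedSpace E N] [IsManifold 𝓘(ℝ, E) ∞ N]
    [RiemannianBundle (fun (x : N) ↦ TangentSpace 𝓘(ℝ, E) x)]
    [IsContMDiffRiemannianBundle 𝓘(ℝ, E) ∞ E (fun (x : N) ↦ TangentSpace 𝓘(ℝ, E) x)]
    [IsRiemannianManifold 𝓘(ℝ, E) N] [ConnectedSpace N]
    -- the fundamental group `Γ`, acting on `V` by `γ_E` and on `N` by `γ_N`, with ratios `lam γ`
    {Γ : Type x} [Group Γ] [MulAction Γ V] [MulAction Γ N] {lam : Γ → ℝ}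
    (h : IsLCPAction V E N Γ lam) :
    -- if `γ_N` has a fixed point then `γ = 1`
    ∀ (γ : Γ) (x : N), γ • x = x → γ = 1 :=
  h.free_on_factor inferInstance

end Pool.Agent.Results.MP_d802ba_gt.FreeOnFactor
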